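import Mathlib
import Pool.Agent.MP_9da210_nt.H88.Param

set_option autoImplicit false

namespace Pool.Agent.Results.MP_9da210_nt.Upper

open Filter Real

/-- For all large `N` and all `k` between `exp (240 (log N)^(2/3) (log log N)^(1/3))` (which is at
most `N`) and `N`, some partition of `{1, …, N}` into exactly `k` nonempty classes has at most
`N / log N`, so fewer than `N / 10`, sums of two distinct elements of the same class. -/
theorem result : ∀ᶠ N : ℕ in atTop,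
    exp (240 * log (N : ℝ) ^ ((2 : ℝ) / 3) * log (log (N : ℝ)) ^ ((1 : ℝ) / 3)) ≤ (N : ℝ) ∧
    ∀ k : ℕ,
      exp (240 * log (N : ℝ) ^ ((2 : ℝ) / 3) * log (log (N : ℝ)) ^ ((1 : ℝ) / 3)) ≤ (k : ℝ) →
      k ≤ N → ∃ c : ℕ → Fin k, (∀ i : Fin k, ∃ a : ℕ, 1 ≤ a ∧ a ≤ N ∧ c a = i) ∧
        ((Set.ncard {s : ℕ | ∃ a b : ℕ, 1 ≤ a ∧ a ≤ N ∧ 1 ≤ b ∧ b ≤ N ∧
          a ≠ b ∧ c a = c b ∧ a + b = s} : ℕ) : ℝ) ≤ (N : ℝ) / log (N : ℝ) ∧
        ((Set.ncard {s : ℕ | ∃ a b : ℕ, 1 ≤ a ∧ a ≤ N ∧ 1 ≤ b ∧ b ≤ N ∧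
          a ≠ b ∧ c a = c b ∧ a + b = s} : ℕ) : ℝ) < (N : ℝ) / 10 := by
  have hlog : Tendsto (fun N : ℕ => log (N : ℝ)) atTop atTop :=
    tendsto_log_atTop.comp tendsto_natCast_atTop_atTop
  filter_upwards [hlog.eventually ((isLittleO_pow_log_id_atTop (n := 4)).bound one_pos),
    hlog.eventually_gt_atTop 10, (tendsto_log_atTop.comp hlog).eventually_ge_atTop 343,
    eventually_gt_atTop 0] with N h1 h2 h3 h4
  have N0 : (0 : ℝ) < N := by exact_mod_cast h4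
  simp only [Function.comp_apply, id, one_mul, norm_eq_abs] at h1 h3
  have cube : ∀ t : ℝ, 0 ≤ t → (t ^ ((1 : ℝ) / 3)) ^ 3 = t := fun t ht => by
    rw [← rpow_natCast, ← rpow_mul ht]
    norm_num
  have e2 : log (N : ℝ) ^ ((2 : ℝ) / 3) = (log (N : ℝ) ^ ((1 : ℝ) / 3)) ^ 2 := by
    rw [← rpow_natCast, ← rpow_mul (by linarith)]
    norm_num
  have hy := cube (log N) (by linarith)
  have hz := cube (log (log N)) (by linarith)
  have y0 : 0 ≤ log (N : ℝ) ^ ((1 : ℝ) / 3) := by positivity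
  have z0 : 0 ≤ log (log (N : ℝ)) ^ ((1 : ℝ) / 3) := rpow_nonneg (by linarith) _
  rw [e2, mul_assoc]
  generalize log (N : ℝ) ^ ((1 : ℝ) / 3) = y at hy y0
  generalize log (log (N : ℝ)) ^ ((1 : ℝ) / 3) = z at hz z0
  have z7 : 7 ≤ z := (pow_le_pow_iff_left₀ (by norm_num) z0 three_ne_zero).1 (by linarith)
  have zy : z ^ 4 ≤ y := (pow_le_pow_iff_left₀ (by positivity) y0 three_ne_zero).1 (by
    rw [← pow_mul, mul_comm, pow_mul, hz, hy]
    exact (le_abs_self _).trans (h1.trans_eq (abs_of_pos (by linarith))))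
  have hN : (N : ℝ) = exp (y ^ 3) := by rw [hy, exp_log N0]
  refine ⟨?_, fun k hk hkN => ?_⟩
  · rw [hN, exp_le_exp]
    have : 343 * z ≤ y := by nlinarith [pow_succ z 3]
    nlinarith [pow_succ y 2, sq_nonneg y]
  · obtain ⟨c, hc, h⟩ := Pool.Agent.MP_9da210_nt.H88.param z7 zy hN
      (by rw [hz, hy, exp_log (by linarith)]) hk hkN
    rw [hy] at h
    exact ⟨c, hc, h, h.trans_lt (by gcongr)⟩

end Pool.Agent.Results.MP_9da210_nt.Upper
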